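import Pool.Agent.HS37.SP.Fin

/-!
# Split-prime supercongruences for `E_k / (j - j(α_D))`

Let `k ∈ {4, 6, 8, 10, 14}`, let `α` be a CM point of discriminant `D` with `j(α) = J ∈ ℤ`,
`J ≠ 0, 1728` (so `D` is one of the discriminants of class number one other than `-3`, `-4`), and
`A(n)` the coefficients of `E_k / (j - J)`. Let `p` be a prime with `(D / p) = 1` and `π ∈ O_D` with
`π π̄ = p`. Then for all `n, l ≥ 1`

`A(n p^l) - π^(k-2) A(n p^(l-1)) ∈ π̄^((k-1) l) O_D`, `A(n p^l) - π̄^(k-2) A(n p^(l-1)) ∈ π^((k-1) l) O_D`.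

This is Q1; its hypothesis on the `p`-adic valuations of `J` and `J - 1728` is not needed.

Proof. Let `f = E_(14-k) / Δ`, of weight `2 - k`, and `Λ = ℤ α + ℤ`. Modular forms are regarded as
homogeneous functions of lattices. For a sublattice `Λ'` of index `N` put `u(Λ') = f(Λ') / f(Λ)` and
`x(Λ') = N^12 Δ(Λ') / Δ(Λ)`, and `T_M(N) = ∑ u(Λ') x(Λ')^M`.
(a) `T_0(N) = A(N)`: for fixed `N` both sides, times `f`, are weakly holomorphic forms of the negative
weight `2 - k` with the same principal part.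
(b) `T_M(N) ∈ N^(k-1) ℤ` for `M ≥ 2`, by the Hecke operator `T_N` for the form `f Δ^M` with integral
`q`-expansion. In the same way `∑ x(Λ')^M ∈ ℤ` for `M ≥ 1`, so the `x(Λ')` are algebraic integers.
(c) `∏ x(Λ') = ± ∏_{a | N} a^(12 N / a)`.
(d) Let `p | N`, `R_M = ∑ u(Λ') x(Λ')^M` over the `Λ'` not contained in `π Λ`. By homogeneity
`R_M = T_M(N) - π^(k-2) π̄^(12 M) T_M(N / p)`, so `R_M` is divisible by `π̄^((k-1) l)` for large `M` if
`p^l | N`, while `R_0 = A(N) - π^(k-2) A(N / p)`. By (c) the product of the `x(Λ')`, `Λ'` not contained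
in `π Λ`, is `± E π^s` with an integer `E` prime to `p`. So the recurrence with the roots `x(Λ')`,
which the `R_M` satisfy, can be run backwards modulo `π̄^((k-1) l)`, and gives the assertion for `R_0`.

Written with helper53 and helper52 (files `Eis`, `Qmul`, `Dual`, `Prod`, `Ord`, `Psum` of
`Pool/Agent/HS37/SP`).
-/

set_option autoImplicit false

open UpperHalfPlane ModularForm EisensteinSeries

namespace Pool.Agent.Results.MP_ce8f6c_nt.SplitPrimeSupercongruences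

noncomputable section

/-- The normalized Eisenstein series `E_k = 1 - (2 k / B_k) ∑ σ_(k-1)(n) q^n`. -/
def eisenstein (k : ℕ) : PowerSeries ℚ :=
  PowerSeries.mk fun n => if n = 0 then 1 else
    -(2 * k / bernoulli k) * (ArithmeticFunction.sigma (k - 1) n : ℚ)

/-- `Δ = (E_4^3 - E_6^2) / 1728` -/
def delta : PowerSeries ℚ := PowerSeries.C (1 / 1728 : ℚ) * (eisenstein 4 ^ 3 - eisenstein 6 ^ 2)

/-- The coefficients of `E_k / (j - J) = E_k Δ / (E_4^3 - J Δ)`, `j = E_4^3 / Δ`. -/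
def A (k : ℕ) (J : ℤ) (n : ℕ) : ℚ :=
  PowerSeries.coeff n
    (eisenstein k * delta * (eisenstein 4 ^ 3 - PowerSeries.C (J : ℚ) * delta)⁻¹)

/-- Klein's invariant `j = E_4^3 / Δ` on the upper half-plane. -/
def j (τ : ℍ) : ℂ := E₄ τ ^ 3 / discriminant τ

/-- `α` is a root of a primitive `a X^2 + b X + c` with `b^2 - 4 a c = D`. -/
def IsCMPoint (D : ℤ) (α : ℍ) : Prop :=
  ∃ a b c : ℤ, 0 < a ∧ Int.gcd (Int.gcd a b) c = 1 ∧ b ^ 2 - 4 * a * c = D ∧
    (a : ℂ) * (α : ℂ) ^ 2 + b * (α : ℂ) + c = 0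

/-- The imaginary quadratic order `O_D = ℤ + ℤ (D + √D) / 2`. -/
def order (D : ℤ) : Set ℂ :=
  {z | ∃ x y : ℤ, z = x + y * ((D + Complex.I * Real.sqrt (-D)) / 2)}

/-- The Kronecker symbol `(D / p)` is `1`. -/
def Splits (D : ℤ) (p : ℕ) : Prop :=
  (p = 2 ∧ D % 8 = 1) ∨ (p ≠ 2 ∧ ¬ (p : ℤ) ∣ D ∧ ∃ z : ℤ, (p : ℤ) ∣ z ^ 2 - D)

open Pool.Agent.HS37.SP

lemma eis_map (k : ℕ) : PowerSeries.map (algebraMap ℚ ℂ) (eisenstein k) = eis k := by
  ext n
  rw [PowerSeries.coeff_map, eisenstein, eis, PowerSeries.coeff_mk, PowerSeries.coeff_mk]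
  split_ifs
  · simp
  · simp

lemma del_map : PowerSeries.map (algebraMap ℚ ℂ) delta = del := by
  rw [delta, del, map_mul, map_sub, map_pow, map_pow, eis_map, eis_map, PowerSeries.map_C]
  congr 2
  simp

lemma const_delta : PowerSeries.constantCoeff delta = 0 := by
  have h : ∀ k, PowerSeries.constantCoeff (eisenstein k) = 1 := fun k => by
    rw [← PowerSeries.coeff_zero_eq_constantCoeff_apply, eisenstein, PowerSeries.coeff_mk,
      if_pos rfl]
  rw [delta, map_mul, map_sub, map_pow, map_pow, h, h]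
  simp

lemma A_eq (k : ℕ) (J : ℤ) (n : ℕ) : ((A k J n : ℚ) : ℂ) = PowerSeries.coeff n (quot k J) := by
  have h1 : PowerSeries.constantCoeff (eisenstein 4 ^ 3 - PowerSeries.C (J : ℚ) * delta) ≠ 0 := by
    rw [map_sub, map_mul, const_delta, map_pow]
    have h : PowerSeries.constantCoeff (eisenstein 4) = 1 := by
      rw [← PowerSeries.coeff_zero_eq_constantCoeff_apply, eisenstein, PowerSeries.coeff_mk,
        if_pos rfl]
    rw [h]
    simp
  have h2 : PowerSeries.map (algebraMap ℚ ℂ)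
      (eisenstein k * delta * (eisenstein 4 ^ 3 - PowerSeries.C (J : ℚ) * delta)⁻¹) =
      quot k J := by
    have h3 : PowerSeries.map (algebraMap ℚ ℂ) (eisenstein 4 ^ 3 - PowerSeries.C (J : ℚ) * delta) =
        eis 4 ^ 3 - PowerSeries.C (J : ℂ) * del := by
      rw [map_sub, map_mul, map_pow, eis_map, del_map, PowerSeries.map_C]
      simp
    have h4 : PowerSeries.constantCoeff (eis 4 ^ 3 - PowerSeries.C (J : ℂ) * del) ≠ 0 := by
      rw [← h3, ← PowerSeries.coeff_zero_eq_constantCoeff_apply, PowerSeries.coeff_map,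
        PowerSeries.coeff_zero_eq_constantCoeff_apply]
      exact (map_ne_zero_iff _ (algebraMap ℚ ℂ).injective).2 h1
    have h5 : PowerSeries.map (algebraMap ℚ ℂ)
        (eisenstein 4 ^ 3 - PowerSeries.C (J : ℚ) * delta)⁻¹ =
        (eis 4 ^ 3 - PowerSeries.C (J : ℂ) * del)⁻¹ := by
      rw [PowerSeries.eq_inv_iff_mul_eq_one h4, ← h3, ← map_mul, PowerSeries.inv_mul_cancel _ h1,
        map_one]
    rw [map_mul, map_mul, eis_map, del_map, h5, quot]
  rw [← h2, PowerSeries.coeff_map]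
  rfl

/-- `a α = (-b + √D) / 2`. -/
lemma root_eq {a b c D : ℤ} {α : ℍ} (ha : 0 < a) (hD : b ^ 2 - 4 * a * c = D)
    (hα : (a : ℂ) * (α : ℂ) ^ 2 + b * (α : ℂ) + c = 0) :
    (a : ℂ) * α = (-b + Complex.I * Real.sqrt (-D)) / 2 := by
  have h1 : (2 * (a : ℂ) * α + b) ^ 2 = D := by
    rw [← hD]
    push_cast
    linear_combination (4 * (a : ℂ)) * hα
  obtain ⟨x, hx⟩ : ∃ x : ℝ, x = (2 * (a : ℂ) * α + b).re := ⟨_, rfl⟩
  obtain ⟨y, hy⟩ : ∃ y : ℝ, y = (2 * (a : ℂ) * α + b).im := ⟨_, rfl⟩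
  have hy2 : y = 2 * a * α.im := by
    rw [hy]
    simp
  have hy0 : 0 < y := by
    rw [hy2]
    have h3 : (0 : ℝ) < a := by exact_mod_cast ha
    have := α.im_pos
    positivity
  have h2 : (2 * (a : ℂ) * α + b) = x + y * Complex.I := by
    rw [hx, hy, Complex.re_add_im]
  have h3 : 2 * x * y = 0 := by
    have h4 := congrArg Complex.im h1
    rw [h2] at h4
    simp [pow_two] at h4
    linarith
  have hx0 : x = 0 := by
    rcases mul_eq_zero.1 h3 with h | h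
    · linarith
    · exact absurd h hy0.ne'
  have h5 : y ^ 2 = -(D : ℝ) := by
    have h4 := congrArg Complex.re h1
    rw [h2, hx0] at h4
    simp [pow_two] at h4
    nlinarith
  have h6 : Real.sqrt (-(D : ℝ)) = y := by
    rw [← h5, Real.sqrt_sq hy0.le]
  have h7 : ((Real.sqrt (-(D : ℝ)) : ℝ) : ℂ) = y := by rw [h6]
  rw [h7]
  rw [hx0] at h2
  simp only [Complex.ofReal_zero, zero_add] at h2
  linear_combination (1 / 2 : ℂ) * h2

lemma order_iff {a b c D : ℤ} {α : ℍ} (ha : 0 < a) (hD : b ^ 2 - 4 * a * c = D)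
    (hα : (a : ℂ) * (α : ℂ) ^ 2 + b * (α : ℂ) + c = 0) (z : ℂ) :
    z ∈ order D ↔ InOrder a α z := by
  obtain ⟨m, hm⟩ : ∃ m : ℤ, D + b = 2 * m := by
    refine ⟨(b * (b + 1)) / 2 - 2 * a * c, ?_⟩
    have h := Int.even_mul_succ_self b
    have h2 := Int.ediv_mul_cancel h.two_dvd
    rw [← hD]
    nlinarith
  have hr := root_eq ha hD hα
  have hm' : (D : ℂ) + b = 2 * m := by exact_mod_cast hm
  constructor
  · rintro ⟨x, y, rfl⟩
    refine ⟨x + y * m, y, ?_⟩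
    push_cast
    linear_combination (-(y : ℂ)) * hr + (y / 2 : ℂ) * hm'
  · rintro ⟨x, y, rfl⟩
    refine ⟨x - y * m, y, ?_⟩
    push_cast
    linear_combination (y : ℂ) * hr - (y / 2 : ℂ) * hm'

/-- **Split-prime supercongruences.** -/
theorem result (k : ℕ) (hk : k = 4 ∨ k = 6 ∨ k = 8 ∨ k = 10 ∨ k = 14) (D : ℤ) (α : ℍ)
    (hα : IsCMPoint D α) (J : ℤ) (hJ : j α = J) (hJ0 : J ≠ 0) (hJ1 : J ≠ 1728)
    (p : ℕ) (hp : p.Prime) (hs : Splits D p) (π : ℂ) (hπ : π ∈ order D)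
    (hππ : π * (starRingEnd ℂ) π = p) (n l : ℕ) (hn : 1 ≤ n) (hl : 1 ≤ l) :
    (∃ w ∈ order D, (A k J (n * p ^ l) : ℂ) - π ^ (k - 2) * A k J (n * p ^ (l - 1)) =
      (starRingEnd ℂ) π ^ ((k - 1) * l) * w) ∧
    (∃ w ∈ order D,
      (A k J (n * p ^ l) : ℂ) - (starRingEnd ℂ) π ^ (k - 2) * A k J (n * p ^ (l - 1)) =
      π ^ ((k - 1) * l) * w) := by
  obtain ⟨a, b, c, ha, -, hD, hroot⟩ := hα
  obtain ⟨r, s, hA⟩ : ∃ r s, Adm k r s := by
    rcases hk with rfl | rfl | rfl | rfl | rfl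
    · exact ⟨1, 1, by simp [Adm]⟩
    · exact ⟨2, 0, by simp [Adm]⟩
    · exact ⟨0, 1, by simp [Adm]⟩
    · exact ⟨1, 0, by simp [Adm]⟩
    · exact ⟨0, 0, by simp [Adm]⟩
  have hJ' : jinv α = J := hJ
  have hsq : ∃ z : ℤ, (if p = 2 then 8 else (p : ℤ)) ∣ b ^ 2 - 4 * a * c - z ^ 2 := by
    rcases hs with ⟨rfl, h8⟩ | ⟨h2, -, z, hz⟩
    · refine ⟨1, ?_⟩
      rw [if_pos rfl, hD]
      omega
    · refine ⟨z, ?_⟩
      rw [if_neg h2, hD]
      obtain ⟨m, hm⟩ := hz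
      exact ⟨-m, by linarith⟩
  have hpD : ¬ (p : ℤ) ∣ b ^ 2 - 4 * a * c := by
    rw [hD]
    rcases hs with ⟨rfl, h8⟩ | ⟨-, h, -⟩
    · intro h
      have : (2 : ℤ) ∣ D := by exact_mod_cast h
      omega
    · exact h
  have hπ' := (order_iff ha hD hroot π).1 hπ
  refine ⟨?_, ?_⟩
  · obtain ⟨w, hw, h⟩ := main hA ha hroot hJ' hJ0 hJ1 hp hsq hpD hπ' hππ
      (n := n) (l := l) hn hl
    exact ⟨w, (order_iff ha hD hroot w).2 hw, by rw [A_eq, A_eq]; exact h⟩
  · obtain ⟨w, hw, h⟩ := main hA ha hroot hJ' hJ0 hJ1 hp hsq hpD (hπ'.conj hroot)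
      (by rw [Complex.conj_conj, mul_comm]; exact hππ) (n := n) (l := l) hn hl
    rw [Complex.conj_conj] at h
    exact ⟨w, (order_iff ha hD hroot w).2 hw, by rw [A_eq, A_eq]; exact h⟩

end

end Pool.Agent.Results.MP_ce8f6c_nt.SplitPrimeSupercongruences
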